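import Pool.Agent.MP_913d4e_co.kz.Turan

/-! Which `n`-vertex graphs have a vanishing coordinate in the simplex of Turán graphs. -/

namespace Pool.Agent.Results.MP_913d4e_co.FiniteFaces
open Finset SimpleGraph Pool.Agent.KzFace

lemma coord {n k : ℕ} (hk : 1 ≤ k) (hn : k ≤ n) : ∃ c : ℕ → ℝ, (∀ e, e < k → c e = 0) ∧ 0 < c k ∧
    (∀ j, 1 ≤ j → j ≤ n → phi (turanGraph n j) c (fun _ => 1) = if j = k then 1 else 0) ∧
    (∀ w : Fin n → ℕ, ∑ x, w x = n → Bal w → phi ⊤ c w = if #(supp w) = k then 1 else 0) ∧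
    ∀ (G : SimpleGraph (Fin n)) (μ : ℕ → ℝ), (∀ e, 1 ≤ e → ((G.cliqueSet e).ncard : ℝ)
      = ∑ k ∈ Icc 1 n, μ k * (((turanGraph n k).cliqueSet e).ncard : ℝ)) →
      μ k = phi G c fun _ => 1 := by
  obtain ⟨c, c0, c1, c2⟩ := dual hk hn
  have c3 : ∀ j, 1 ≤ j → j ≤ n → phi (turanGraph n j) c (fun _ => 1) = if j = k then 1 else 0 :=
    fun j h1 h2 => by rw [phi_one, Fintype.card_fin, c2 j h1 h2]
  refine ⟨c, c0, c1, c3, fun w hw hb => ?_, fun G μ hμ => ?_⟩
  · obtain ⟨h1, h2, h3⟩ := phi_bal (hk.trans hn) c hw hb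
    rw [h3, c3 _ h1 h2]
  · rw [phi_one, Fintype.card_fin]
    have e1 : ∀ e ∈ range (n + 1), c e * ((G.cliqueSet e).ncard : ℝ)
        = ∑ j ∈ Icc 1 n, μ j * (c e * (((turanGraph n j).cliqueSet e).ncard : ℝ)) := by
      intro e _
      rcases Nat.eq_zero_or_pos e with h | h
      · simp [c0 e (by omega)]
      · rw [hμ e h, mul_sum]
        exact sum_congr rfl fun j _ => by ring
    rw [sum_congr rfl e1, sum_comm]
    have e2 : ∀ j ∈ Icc 1 n, ∑ e ∈ range (n + 1),
        μ j * (c e * (((turanGraph n j).cliqueSet e).ncard : ℝ)) = if j = k then μ j else 0 := by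
      intro j hj
      rw [← mul_sum, c2 j (mem_Icc.1 hj).1 (mem_Icc.1 hj).2]
      split_ifs <;> simp
    rw [sum_congr rfl e2, sum_ite_eq', if_pos (mem_Icc.2 ⟨hk, hn⟩)]

theorem result (n : ℕ) (G : SimpleGraph (Fin n)) (μ : ℕ → ℝ)
    (hμ : ∀ e, 1 ≤ e → ((G.cliqueSet e).ncard : ℝ)
      = ∑ k ∈ Icc 1 n, μ k * (((turanGraph n k).cliqueSet e).ncard : ℝ)) :
    (∀ k, 1 ≤ k → k ≤ G.cliqueNum → 0 < μ k) ↔
      ¬ ((∃ r, 2 ≤ r ∧ r ≤ n ∧ Nonempty (G ≃g turanGraph n r)) ∨ Sporadic G) := by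
  constructor
  · intro hpos hex
    have hn : 1 ≤ n := by
      rcases hex with ⟨r, h1, h2, -⟩ | ⟨_, _, d, -⟩
      · omega
      · exact d.pos
    have h1 : 1 ≤ G.cliqueNum := by
      have := IsClique.card_le_cliqueNum (G := G) (t := {⟨0, hn⟩}) (tc := by simp)
      rwa [card_singleton] at this
    obtain ⟨c, -, -, c2, c3, c4⟩ := coord le_rfl hn
    refine (hpos 1 le_rfl h1).ne' ?_
    rw [c4 G μ hμ]
    rcases hex with ⟨r, h2, h3, ⟨σ⟩⟩ | hs
    · rw [← if_neg (show ¬ r = 1 by omega) (t := (1 : ℝ)) (e := 0), ← c2 r (by omega) h3]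
      exact phi_iso σ c fun _ => 1
    · obtain ⟨f, hadj, hal⟩ := hs.al
      refine descend G c (fun w => ∑ x, w x = n ∧ push f w = sz f) (· = 0)
        (fun a b x y z ha hb e hx hy => ?_) (fun w u v h hn' hw => ?_) (fun w hw hc => ?_) _
        ⟨by simp, push_one f⟩
      · rw [hx, hy, mul_zero, mul_zero, add_zero] at e
        exact (mul_eq_zero.1 e).resolve_left (add_pos ha hb).ne'
      · exact ⟨by rw [sum_mv w h, hw.1],
          by rw [push_mv w h (by_contra fun e => hn' (hadj u v e)), hw.2]⟩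
      · exact al_zero (fun w hw hb h2 => by rw [c3 w hw hb, if_neg (by omega)]) hw.1
          (hal w hw.2 hc)
  · intro hex k hk hkG
    obtain ⟨T, hT⟩ := G.exists_isNClique_cliqueNum
    have hn : k ≤ n := by
      have := card_le_univ T
      rw [hT.card_eq, Fintype.card_fin] at this
      omega
    obtain ⟨c, c0, c1, -, c3, c4⟩ := coord hk hn
    have p1 := top_nonneg (V := Fin n) (n := n) (c := c) fun w hw hb => by
      rw [c3 w hw hb]; split_ifs <;> norm_num
    have p2 := descend G c (fun w => ∑ x, w x = n) (0 ≤ ·)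
      (fun a b x y z ha hb e hx hy => by
        have : 0 ≤ (a + b) * z := by rw [e]; positivity
        exact nonneg_of_mul_nonneg_right this (add_pos ha hb))
      (fun w u v h _ hw => by rw [sum_mv w h, hw]) fun w hw _ => p1 w hw
    rw [c4 G μ hμ]
    refine lt_of_le_of_ne (p2 _ (by simp)) fun h0 => hex ?_
    have := classify (G := G) (S := fun w => ∑ x, w x = n ∧ phi G c w = 0 ∧
        ∃ T : Finset (Fin n), G.IsClique (T : Set (Fin n)) ∧ T ⊆ supp w ∧ k ≤ #T)
      (fun w u v h hn' hu ⟨w1, w2, T, t1, t2, t3⟩ => ?_)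
      ⟨by simp, h0.symm, T, hT.isClique, fun x _ => mem_supp.2 Nat.one_pos, by
        rw [hT.card_eq]; exact hkG⟩
      fun w ⟨w1, w2, T, _, t2, t3⟩ hc => top_zero hk c0 c1 p1 w w1
        (by rw [← phi_eq_top c hc, w2]) (t3.trans (card_le_card t2))
    · refine this.imp_left fun ⟨r, h1, h2, h3⟩ => ⟨_, h2, ?_, iso_turan h1 (by omega) h3⟩
      exact (card_le_univ _).trans (Fintype.card_fin n).le
    · have s1 : ∑ x, mv w u v x = n := by rw [sum_mv w h, w1]
      refine ⟨s1, ?_, ?_⟩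
      · have e := phi_mix G c w h hn'
        have q1 := p2 _ s1
        have q2 := p2 (mv w v u) (by rw [sum_mv w h.symm, w1])
        have hu' : (0 : ℝ) < w u := by exact_mod_cast hu
        rw [w2, mul_zero] at e
        have q3 : 0 ≤ (w v : ℝ) * phi G c (mv w v u) := mul_nonneg (Nat.cast_nonneg _) q2
        have q4 := mul_nonneg hu'.le q1
        exact (mul_eq_zero.1 (show (w u : ℝ) * phi G c (mv w u v) = 0 by linarith)).resolve_left
          hu'.ne'
      · obtain ⟨T', a1, a2, a3⟩ := bigger c0 c1 w2 t1 t2 t3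
        refine ⟨T'.erase v, a1.subset (coe_subset.2 (erase_subset _ _)), ?_, ?_⟩
        · rw [supp_mv w h hu]; exact erase_subset_erase _ a2
        · have := pred_card_le_card_erase (s := T') (a := v)
          omega

/-- The coordinates in the hypothesis of `result` always exist (not part of `result`). -/
lemma coords_exist (n : ℕ) (G : SimpleGraph (Fin n)) : ∃ μ : ℕ → ℝ,
    ∀ e, 1 ≤ e → ((G.cliqueSet e).ncard : ℝ)
      = ∑ k ∈ Icc 1 n, μ k * (((turanGraph n k).cliqueSet e).ncard : ℝ) := by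
  have key : ∀ m, m ≤ n → ∀ v : ℕ → ℝ, (∀ e, m < e → v e = 0) → ∃ μ : ℕ → ℝ,
      ∀ e, 1 ≤ e → v e = ∑ k ∈ Icc 1 m, μ k * (((turanGraph n k).cliqueSet e).ncard : ℝ) := by
    intro m
    induction m with
    | zero => exact fun _ v hv => ⟨0, fun e he => by simp [hv e he]⟩
    | succ m ih =>
      intro hm v hv
      have hp : (0 : ℝ) < ((turanGraph n (m + 1)).cliqueSet (m + 1)).ncard := by
        exact_mod_cast cnt_pos (by omega) hm
      obtain ⟨a, ha⟩ : ∃ a : ℝ, a * ((turanGraph n (m + 1)).cliqueSet (m + 1)).ncard = v (m + 1) :=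
        ⟨_, div_mul_cancel₀ _ hp.ne'⟩
      obtain ⟨μ, hμ⟩ := ih (by omega)
        (fun e => v e - a * (((turanGraph n (m + 1)).cliqueSet e).ncard : ℝ)) fun e he => by
          by_cases h : e = m + 1
          · simp only [h, ha, sub_self]
          · simp only [hv e (by omega), cnt_zero (n := n) (j := m + 1) (e := e) (by omega) (by omega)]
            simp
      refine ⟨fun k => if k = m + 1 then a else μ k, fun e he => ?_⟩
      rw [sum_Icc_succ_top (by omega), sum_congr rfl (g := fun k => μ k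
        * (((turanGraph n k).cliqueSet e).ncard : ℝ)) fun k hk => by
          simp only [if_neg (show ¬ k = m + 1 by have := (mem_Icc.1 hk).2; omega)], ← hμ e he]
      simp
  refine key n le_rfl _ fun e he => ?_
  rw [cliqueSet_eq_empty_iff.2 (cliqueFree_of_card_lt (by simpa using he))]
  simp

end Pool.Agent.Results.MP_913d4e_co.FiniteFaces
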