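import Pool.Agent.TurSp.Spec

/-! Explicit barycentric weights of a graphon on the tail points, with a uniform lower bound. -/

namespace Pool.Agent.Results.MP_913d4e_co.Rigidity
open Pool.Agent.TurSp

theorem result : ∃ c : ℕ → ℝ → ℝ, (∀ (k : ℕ) (η : ℝ), 0 < η → 0 < c k η) ∧
    ∀ W : unitInterval → unitInterval → ℝ, IsGraphon W → tK 2 W < 1 →
      (∀ j : ℕ, 1 ≤ j → (Summable fun e : ℕ => coef j e * tK e W) ∧ 0 ≤ weight j W) ∧
      HasSum (fun j : ℕ => weight (j + 1) W) 1 ∧
      (∀ e : ℕ, 1 ≤ e →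
        HasSum (fun j : ℕ => weight (j + 1) W * tail e (1 / ((j : ℝ) + 1))) (tK e W)) ∧
      (∀ (k : ℕ) (η : ℝ), 0 < η → η ≤ tK k W → η ≤ tK 3 W - tK 2 W * (2 * tK 2 W - 1) →
        ∀ j : ℕ, 1 ≤ j → j ≤ k → c k η ≤ weight j W) := by
  have hex : ∀ (k : ℕ) (η : ℝ), ∃ C : ℝ, 0 < η → 0 < C ∧
      ∀ W : unitInterval → unitInterval → ℝ, IsGraphon W → tK 2 W < 1 → η ≤ tK k W →
        η ≤ tK 3 W - tK 2 W * (2 * tK 2 W - 1) →
        ∀ j : ℕ, 1 ≤ j → j ≤ k → C ≤ weight j W := by
    intro k η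
    by_cases hη : 0 < η
    · obtain ⟨C, hC, h⟩ := graphon_bound (le_max_right k 2) (half_pos hη)
      refine ⟨C, fun _ => ⟨hC, fun W hW h2 hk hD j hj1 hjk => ?_⟩⟩
      have h32 : tK 3 W ≤ tK 2 W := by
        refine hasSum_le (fun i => ?_) (represent hW h2 3) (represent hW h2 2)
        refine mul_le_mul_of_nonneg_left ?_ (weight_nonneg hW (by omega))
        have h3 := tail_nonneg (i := i + 1) (by omega) 2
        push_cast at h3
        rw [tail_succ]
        exact mul_le_of_le_one_right h3 (sub_le_self _ (by positivity))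
      have hk' : η / 2 ≤ tK (max k 2) W := by
        rcases le_total k 2 with h3 | h3
        · rw [max_eq_right h3]; nlinarith [sq_nonneg (tK 2 W)]
        · rw [max_eq_left h3]; linarith
      have := h W (coef j) j hW (summable_coef j)
        (fun i hi => by rw [tur_coef hi hj1]; split_ifs <;> norm_num) hj1
        (le_trans hjk (le_max_left _ _)) hk' (by linarith)
      rw [tur_coef hj1 hj1, if_pos rfl, mul_one] at this
      exact this
    · exact ⟨1, fun h => absurd h hη⟩
  choose c hc using hex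
  exact ⟨c, fun k η hη => (hc k η hη).1, fun W hW h2 => ⟨fun j hj =>
    ⟨summable_mul hW (summable_coef j), weight_nonneg hW hj⟩, weight_sum hW h2,
    fun e _ => represent hW h2 e, fun k η hη => (hc k η hη).2 W hW h2⟩⟩

/-- A consequence of `result` (not part of it): a graphon with `t_2 < 1` and all `t_{e i} > 0`
has the clique densities of one tail point, or gives an interior point of the hull. -/
lemma dichotomy {W : unitInterval → unitInterval → ℝ} (hW : IsGraphon W) (h2 : tK 2 W < 1)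
    {m : ℕ} {e : Fin m → ℕ} (he : StrictMono e) (h1 : ∀ i, 2 ≤ e i)
    (hpos : ∀ i, 0 < tK (e i) W) :
    (∃ j : ℕ, 1 ≤ j ∧ ∀ r : ℕ, 1 ≤ r → tK r W = tail r (1 / (j : ℝ))) ∨
      (fun i => tK (e i) W) ∈ interior (hull e) := by
  obtain ⟨c, hc0, hc⟩ := result
  by_cases hD : tK 3 W - tK 2 W * (2 * tK 2 W - 1) ≤ 0
  · obtain ⟨j, hj, h⟩ := point_mass hW h2 hD
    exact Or.inl ⟨j, hj, fun r _ => h r⟩
  · push Not at hD
    have key : ∀ k, 1 ≤ k → 0 < tK k W → 0 < weight k W := fun k hk1 hk =>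
      lt_of_lt_of_le (hc0 k _ (lt_min hk hD))
        ((hc W hW h2).2.2.2 k _ (lt_min hk hD) (min_le_left _ _) (min_le_right _ _) k hk1 le_rfl)
    exact Or.inr (mem_interior_hull hW h2 he h1 (key 1 le_rfl (by rw [tK_one]; norm_num))
      fun i => key _ (by have := h1 i; omega) (hpos i))

end Pool.Agent.Results.MP_913d4e_co.Rigidity
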